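import Pool.Agent.H2.Sharp

/-!
# The density of the exceptions to the Ramanujan conjecture for `GL_2` that symmetric power functoriality allows

Kim and Shahidi deduce from the cuspidality of `Sym^i Π`, `i ≤ 4`, that a cuspidal representation `Π` of `GL_2` is
tempered at a set of places of lower density at least `34/35`. Here is the exact limit of such arguments: for every
`M ≥ 1`, `T ≥ 2`, the orthonormality of the traces of `Sym^i`, `i ≤ M`, implies that `|λ_p| ≥ T` holds on a set of primes
of upper density at most `1 / Δ M T` (`Δ 4 2 = 35`) and `λ_p ≥ T` on one of upper density at most `1 / Δ₁ M T`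
(`Δ₁ 4 2 = 55`), and both bounds are attained, with non-tempered local components at these primes, by systems of unitary
local parameters whose `L`-functions `L(s, Sym^i × Sym^j × τ)`, `i, j ≤ M`, have the best possible analytic behaviour for
all `τ` from any prescribed countable family.
-/

set_option autoImplicit false

open Filter Topology Pool.Agent.H2.SymDefs

theorem Pool.Agent.Results.MP_08cfa9_nt.SymPowDensity.result :
    (∀ (M : ℕ), 1 ≤ M → ∀ T : ℝ, 2 ≤ T →
      -- the upper bounds
      (∀ α : Nat.Primes → ℂ, Unitary α → Orthonormal α M →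
        limsup (share {p | T ≤ |lam α p|}) atTop ≤ 1 / Δ M T ∧
        limsup (share {p | T ≤ lam α p}) atTop ≤ 1 / Δ₁ M T) ∧
      -- the first one is attained
      (∀ (J : Type) [Countable J] (τ : J → EulerProduct), ∃ α : Nat.Primes → ℂ,
        Unitary α ∧ Orthonormal α M ∧ (∀ m, Nice α M (τ m)) ∧
        (∀ p, |lam α p| < 2 ∨ ‖α p‖ ≠ 1 ∧ T < |lam α p|) ∧
        Tendsto (share {p | ‖α p‖ ≠ 1 ∧ T < |lam α p|}) atTop (𝓝 (1 / Δ M T))) ∧
      -- the second one is attained
      (∀ (J : Type) [Countable J] (τ : J → EulerProduct), ∃ α : Nat.Primes → ℂ,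
        Unitary α ∧ Orthonormal α M ∧ (∀ m, Nice α M (τ m)) ∧
        (∀ p, |lam α p| < 2 ∨ ‖α p‖ ≠ 1 ∧ T < lam α p) ∧
        Tendsto (share {p | ‖α p‖ ≠ 1 ∧ T < lam α p}) atTop (𝓝 (1 / Δ₁ M T)))) ∧
    Δ 1 2 = 4 ∧ Δ 2 2 = 10 ∧ Δ 3 2 = 20 ∧ Δ 4 2 = 35 ∧ Δ₁ 4 2 = 55 :=
  ⟨fun M hM T hT => Pool.Agent.H2.Real.density_limit M hM T hT, Pool.Agent.H2.Real.Δ_values⟩
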